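import Mathlib

/-!
# Counting the integer forms with a given value at a primitive point
-/

set_option autoImplicit false

open Finset

open scoped Classical

namespace Pool.Agent.Helper43.VA

/-- the box -/
noncomputable def bx (A : ℕ) (T : Type) [Fintype T] : Finset (T → ℤ) :=
  Fintype.piFinset fun _ => Icc (-(A : ℤ)) A

theorem mem_bx {A : ℕ} {T : Type} [Fintype T] {f : T → ℤ} :
    f ∈ bx A T ↔ ∀ m, f m ∈ Icc (-(A : ℤ)) A := by
  rw [bx, Fintype.mem_piFinset]

theorem card_split (T : Type) [Fintype T] (P : T → Prop) [Fintype {m : T // P m}]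
    [Fintype {m : T // ¬ P m}] : Fintype.card {m : T // P m} + Fintype.card {m : T // ¬ P m} = Fintype.card T := by
  have := Fintype.card_congr (Equiv.sumCompl P)
  rw [Fintype.card_sum] at this
  convert this

theorem card_res (A B : ℕ) (hB : 1 ≤ B) (hBA : B ≤ A) (r : ZMod B) :
    (((Icc (-(A : ℤ)) A).filter (fun a => ((a : ℤ) : ZMod B) = r)).card : ℝ) ≤ 4 * A / B := by
  have hB0 : (0 : ℤ) < B := by exact_mod_cast hB
  obtain ⟨v, hv⟩ := ZMod.intCast_surjective r
  have h1 : (Icc (-(A : ℤ)) A).filter (fun a => ((a : ℤ) : ZMod B) = r)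
      = (Ioc (-(A : ℤ) - 1) A).filter (fun a => a ≡ v [ZMOD B]) := by
    ext a
    rw [mem_filter, mem_filter, mem_Icc, mem_Ioc, ← hv, ZMod.intCast_eq_intCast_iff]
    constructor
    · rintro ⟨⟨h1, h2⟩, h3⟩; exact ⟨⟨by omega, h2⟩, h3⟩
    · rintro ⟨⟨h1, h2⟩, h3⟩; exact ⟨⟨by omega, h2⟩, h3⟩
  rw [h1]
  have h2 := Int.Ioc_filter_modEq_card (-(A : ℤ) - 1) A hB0 v
  have h3 : (((Ioc (-(A : ℤ) - 1) A).filter (fun a => a ≡ v [ZMOD B])).card : ℤ)
      = max (⌊((A : ℤ) - v) / (B : ℚ)⌋ - ⌊(-(A : ℤ) - 1 - v : ℚ) / (B : ℚ)⌋) 0 := by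
    rw [h2]; push_cast; rfl
  have hBq : (0 : ℚ) < B := by exact_mod_cast hB0
  have h4 : ((max (⌊((A : ℤ) - v) / (B : ℚ)⌋ - ⌊(-(A : ℤ) - 1 - v : ℚ) / (B : ℚ)⌋) 0 : ℤ) : ℚ)
      ≤ 4 * A / B := by
    rw [Int.cast_max, Int.cast_zero]
    apply max_le
    · push_cast
      have e1 := Int.floor_le (((A : ℚ) - v) / (B : ℚ))
      have e2 := Int.lt_floor_add_one ((-(A : ℚ) - 1 - v) / (B : ℚ))
      have e3 : ((A : ℚ) - v) / B - (-(A : ℚ) - 1 - v) / B = (2 * A + 1) / B := by
        field_simp; ring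
      have e4 : (2 * (A : ℚ) + 1) / B + 1 ≤ 4 * A / B := by
        rw [div_add_one hBq.ne', div_le_div_iff_of_pos_right hBq]
        have : (B : ℚ) ≤ A := by exact_mod_cast hBA
        have : (1 : ℚ) ≤ A := by exact_mod_cast hB.trans hBA
        linarith
      linarith
    · positivity
  have h5 : (((Ioc (-(A : ℤ) - 1) A).filter (fun a => a ≡ v [ZMOD B])).card : ℚ) ≤ 4 * A / B := by
    have : (((Ioc (-(A : ℤ) - 1) A).filter (fun a => a ≡ v [ZMOD B])).card : ℚ)
      = (((((Ioc (-(A : ℤ) - 1) A).filter (fun a => a ≡ v [ZMOD B])).card : ℤ)) : ℚ) := by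
      push_cast; rfl
    rw [this, h3]; exact h4
  have h6 := (Rat.cast_le (K := ℝ)).2 h5
  push_cast at h6
  exact h6

/-- residue vectors with a given value -/
theorem card_zmod (T : Type) [Fintype T] (B : ℕ) [NeZero B] (hB : 1 ≤ B) (u : T → ℤ)
    (hp : ∀ p : ℕ, p.Prime → p ∣ B → ∃ m, ¬ (p : ℤ) ∣ u m) (c : ZMod B) :
    ((univ.filter (fun r : T → ZMod B => ∑ m, r m * (u m : ZMod B) = c)).card : ℝ)
      ≤ (B : ℝ) ^ (Fintype.card T) / B := by
  let φ : (T → ZMod B) →+ ZMod B :=
    { toFun := fun r => ∑ m, r m * (u m : ZMod B)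
      map_zero' := by simp
      map_add' := fun a b => by
        rw [← sum_add_distrib]
        exact sum_congr rfl fun m _ => by rw [Pi.add_apply, add_mul] }
  -- surjective
  have hsurj : Function.Surjective φ := by
    -- the ideal generated by the values and `B`
    let I : Ideal ℤ := Ideal.span (Set.range u ∪ {(B : ℤ)})
    have hI : I = ⊤ := by
      obtain ⟨g, hg⟩ := (IsPrincipalIdealRing.principal I).principal
      have hg' : I = Ideal.span {g} := hg
      have hgB : g ∣ (B : ℤ) := by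
        rw [← Ideal.mem_span_singleton, ← hg']
        exact Ideal.subset_span (Or.inr rfl)
      have hgu : ∀ m, g ∣ u m := fun m => by
        rw [← Ideal.mem_span_singleton, ← hg']
        exact Ideal.subset_span (Or.inl ⟨m, rfl⟩)
      rw [hg', Ideal.span_singleton_eq_top]
      by_contra hu
      have h1 : g.natAbs ≠ 1 := fun h => hu (Int.isUnit_iff_natAbs_eq.2 h)
      obtain ⟨p, hpp, hpg⟩ := Nat.exists_prime_and_dvd h1
      have hpg' : (p : ℤ) ∣ g := Int.natCast_dvd.2 hpg
      have hpB : p ∣ B := by exact_mod_cast hpg'.trans hgB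
      obtain ⟨m, hm⟩ := hp p hpp hpB
      exact hm (hpg'.trans (hgu m))
    have h1 : ∃ r : T → ZMod B, φ r = 1 := by
      have h2 : ∀ a ∈ I, ∃ r : T → ZMod B, φ r = (a : ZMod B) := by
        intro a ha
        refine Submodule.span_induction (R := ℤ) (M := ℤ) (s := Set.range u ∪ {(B : ℤ)})
          (p := fun a _ => ∃ r : T → ZMod B, φ r = (a : ZMod B)) ?_ ?_ ?_ ?_ ha
        · rintro a (⟨m, rfl⟩ | ha)
          · refine ⟨Pi.single m 1, ?_⟩
            change ∑ k, (Pi.single m 1 : T → ZMod B) k * (u k : ZMod B) = _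
            rw [sum_eq_single m]
            · rw [Pi.single_eq_same, one_mul]
            · intro k _ hk
              rw [Pi.single_eq_of_ne hk, zero_mul]
            · intro h; exact absurd (mem_univ _) h
          · refine ⟨0, ?_⟩
            rw [Set.mem_singleton_iff] at ha
            rw [map_zero, ha]
            simp
        · exact ⟨0, by rw [map_zero]; simp⟩
        · rintro a b _ _ ⟨r, hr⟩ ⟨s, hs⟩
          exact ⟨r + s, by rw [map_add, hr, hs]; push_cast; rfl⟩
        · rintro t a _ ⟨r, hr⟩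
          refine ⟨fun m => (t : ZMod B) * r m, ?_⟩
          change ∑ k, (t : ZMod B) * r k * (u k : ZMod B) = _
          have : φ r = ∑ k, r k * (u k : ZMod B) := rfl
          rw [this] at hr
          rw [smul_eq_mul, Int.cast_mul, ← hr, mul_sum]
          exact sum_congr rfl fun k _ => by ring
      obtain ⟨r, hr⟩ := h2 1 (by rw [hI]; trivial)
      exact ⟨r, by rw [hr]; simp⟩
    obtain ⟨r, hr⟩ := h1
    intro c
    refine ⟨fun m => c * r m, ?_⟩
    change ∑ k, c * r k * (u k : ZMod B) = _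
    have : φ r = ∑ k, r k * (u k : ZMod B) := rfl
    rw [this] at hr
    calc ∑ k, c * r k * (u k : ZMod B) = c * ∑ k, r k * (u k : ZMod B) := by
          rw [mul_sum]; exact sum_congr rfl fun k _ => by ring
      _ = c := by rw [hr, mul_one]
  -- all fibres have the same size
  have hfib : ∀ c', (univ.filter (fun r : T → ZMod B => φ r = c')).card
      = (univ.filter (fun r : T → ZMod B => φ r = c)).card := by
    intro c'
    obtain ⟨r0, hr0⟩ := hsurj (c - c')
    refine card_bij (fun r _ => r + r0) ?_ ?_ ?_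
    · intro r hr
      rw [mem_filter] at hr ⊢
      exact ⟨mem_univ _, by rw [map_add, hr.2, hr0]; ring⟩
    · intro a _ b _ h
      exact add_right_cancel h
    · intro r hr
      rw [mem_filter] at hr
      refine ⟨r - r0, ?_, by simp⟩
      rw [mem_filter]
      exact ⟨mem_univ _, by rw [map_sub, hr.2, hr0]; ring⟩
  have htot : (univ : Finset (T → ZMod B)).card
      = ∑ c' : ZMod B, (univ.filter (fun r : T → ZMod B => φ r = c')).card :=
    card_eq_sum_card_fiberwise fun x _ => mem_univ (φ x)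
  rw [sum_congr rfl (fun c' _ => hfib c'), sum_const, card_univ, card_univ, ZMod.card,
    Fintype.card_fun, ZMod.card, smul_eq_mul] at htot
  rw [le_div_iff₀ (by exact_mod_cast hB)]
  have h9 : ((univ.filter (fun r : T → ZMod B => φ r = c)).card : ℝ) * B
      = (B : ℝ) ^ (Fintype.card T) := by
    rw [mul_comm]
    exact_mod_cast htot.symm
  exact h9.le

/-- forms in a box with a given value modulo `B` -/
theorem card_mod (T : Type) [Fintype T] (A B : ℕ) (hB : 1 ≤ B) (hBA : B ≤ A) (u : T → ℤ) (x0 : ℤ)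
    (hx : x0.natAbs = B) (hp : ∀ p : ℕ, p.Prime → p ∣ B → ∃ m, ¬ (p : ℤ) ∣ u m) (c : ℤ) :
    (((bx A T).filter (fun f => x0 ∣ c - ∑ m, f m * u m)).card : ℝ)
      ≤ (4 * A : ℝ) ^ (Fintype.card T) / B := by
  have : NeZero B := ⟨by omega⟩
  have hBr : (0 : ℝ) < B := by exact_mod_cast hB
  set R := univ.filter (fun r : T → ZMod B => ∑ m, r m * (u m : ZMod B) = (c : ZMod B)) with hR
  have h1 : ∀ f ∈ (bx A T).filter (fun f => x0 ∣ c - ∑ m, f m * u m),
      (fun m => ((f m : ℤ) : ZMod B)) ∈ R := by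
    intro f hf
    rw [mem_filter] at hf
    rw [hR, mem_filter]
    refine ⟨mem_univ _, ?_⟩
    have h2 : (B : ℤ) ∣ c - ∑ m, f m * u m := by
      rw [← hx]
      exact Int.natAbs_dvd.2 hf.2
    have h3 := (ZMod.intCast_zmod_eq_zero_iff_dvd _ B).2 h2
    push_cast at h3
    exact (sub_eq_zero.1 h3).symm
  have h2 : ∀ r ∈ R, ((((bx A T).filter (fun f => x0 ∣ c - ∑ m, f m * u m)).filter
      (fun f => (fun m => ((f m : ℤ) : ZMod B)) = r)).card : ℝ) ≤ (4 * A / B) ^ (Fintype.card T) := by
    intro r _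
    have h3 : ((bx A T).filter (fun f => x0 ∣ c - ∑ m, f m * u m)).filter
      (fun f => (fun m => ((f m : ℤ) : ZMod B)) = r) ⊆
      Fintype.piFinset (fun m => (Icc (-(A : ℤ)) A).filter (fun a => ((a : ℤ) : ZMod B) = r m)) := by
      intro f hf
      rw [mem_filter, mem_filter, bx, Fintype.mem_piFinset] at hf
      rw [Fintype.mem_piFinset]
      intro m
      rw [mem_filter]
      exact ⟨hf.1.1 m, congrFun hf.2 m⟩
    calc _ ≤ ((Fintype.piFinset (fun m => (Icc (-(A : ℤ)) A).filter
          (fun a => ((a : ℤ) : ZMod B) = r m))).card : ℝ) := by exact_mod_cast card_le_card h3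
      _ = ∏ m, (((Icc (-(A : ℤ)) A).filter (fun a => ((a : ℤ) : ZMod B) = r m)).card : ℝ) := by
        rw [Fintype.card_piFinset]; push_cast; rfl
      _ ≤ ∏ _m : T, (4 * A / B : ℝ) := prod_le_prod (fun _ _ => by positivity)
          (fun m _ => card_res A B hB hBA _)
      _ = _ := by rw [prod_const, card_univ]
  have h3 := card_eq_sum_card_fiberwise h1
  calc _ = ∑ r ∈ R, ((((bx A T).filter (fun f => x0 ∣ c - ∑ m, f m * u m)).filter
      (fun f => (fun m => ((f m : ℤ) : ZMod B)) = r)).card : ℝ) := by exact_mod_cast h3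
    _ ≤ ∑ _r ∈ R, (4 * A / B : ℝ) ^ (Fintype.card T) := sum_le_sum h2
    _ = R.card * (4 * A / B) ^ (Fintype.card T) := by rw [sum_const, nsmul_eq_mul]
    _ ≤ ((B : ℝ) ^ (Fintype.card T) / B) * (4 * A / B) ^ (Fintype.card T) :=
        mul_le_mul_of_nonneg_right (card_zmod T B hB u hp _) (by positivity)
    _ = _ := by
        rw [div_pow]
        field_simp

theorem card_bx (A : ℕ) (T : Type) [Fintype T] :
    ((bx A T).card : ℝ) = (2 * A + 1 : ℝ) ^ (Fintype.card T) := by
  rw [bx, Fintype.card_piFinset, prod_const, card_univ, Int.card_Icc]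
  have : ((A : ℤ) + 1 - -(A : ℤ)).toNat = 2 * A + 1 := by omega
  rw [this]
  push_cast
  rfl

/-- forms in a box with a given value -/
theorem card_val (A B : ℕ) (hB : 1 ≤ B) (hBA : B ≤ A) (x0 : ℤ) (hx : x0.natAbs = B) :
    ∀ (d : ℕ) (T : Type) [Fintype T] (j : T → ℕ) (u : T → ℤ),
    (∀ k < d, ∀ p : ℕ, p.Prime → p ∣ B → ∃ m, j m = k ∧ ¬ (p : ℤ) ∣ u m) →
    (∃ m, j m = d ∧ u m = 1) → ∀ c : ℤ,
    (((bx A T).filter (fun f => ∑ m, f m * (x0 ^ j m * u m) = c)).card : ℝ)
      ≤ (4 * A : ℝ) ^ (Fintype.card T - 1) / (B : ℝ) ^ d := by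
  have hA1 : (1 : ℝ) ≤ A := by exact_mod_cast hB.trans hBA
  intro d
  induction d with
  | zero =>
    intro T _ j u _ hm c
    obtain ⟨m0, hj, hu⟩ := hm
    have h1 : ((bx A T).filter (fun f => ∑ m, f m * (x0 ^ j m * u m) = c)).card
        ≤ (bx A {m : T // m ≠ m0}).card := by
      refine card_le_card_of_injOn (fun f => fun m => f m.1) ?_ ?_
      · intro f hf
        rw [mem_coe, mem_filter, mem_bx] at hf
        rw [mem_coe, mem_bx]
        exact fun m => hf.1 m.1
      · intro f hf g hg hfg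
        rw [mem_coe, mem_filter] at hf hg
        have h2 : ∀ m, m ≠ m0 → f m = g m := fun m hm => congrFun hfg ⟨m, hm⟩
        have h3 := hf.2.trans hg.2.symm
        rw [← add_sum_erase _ _ (mem_univ m0), ← add_sum_erase _ _ (mem_univ m0)] at h3
        have h4 : ∑ m ∈ univ.erase m0, f m * (x0 ^ j m * u m)
            = ∑ m ∈ univ.erase m0, g m * (x0 ^ j m * u m) :=
          sum_congr rfl fun m hm => by rw [h2 m (mem_erase.1 hm).1]
        rw [h4, hj, hu] at h3
        funext m
        by_cases hm : m = m0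
        · subst hm
          simpa using h3
        · exact h2 m hm
    have h2 : Fintype.card {m : T // m ≠ m0} = Fintype.card T - 1 := by
      have h0 := card_split T (fun m => m = m0)
      have h00 : Fintype.card {m : T // m = m0} = 1 := by
        rw [Fintype.card_eq_one_iff]
        exact ⟨⟨m0, rfl⟩, fun y => Subtype.ext y.2⟩
      rw [h00] at h0
      change Fintype.card {m : T // ¬ m = m0} = _
      omega
    have h3 := card_bx A {m : T // m ≠ m0}
    rw [h2] at h3
    calc _ ≤ ((bx A {m : T // m ≠ m0}).card : ℝ) := by exact_mod_cast h1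
      _ = (2 * A + 1 : ℝ) ^ (Fintype.card T - 1) := h3
      _ ≤ (4 * A : ℝ) ^ (Fintype.card T - 1) := by
          apply pow_le_pow_left₀ (by positivity); linarith
      _ = _ := by rw [pow_zero, div_one]
  | succ d ih =>
    intro T _ j u hp hm c
    obtain ⟨m0, hj, hu⟩ := hm
    have hm0 : j m0 ≠ 0 := by omega
    set S0 := (bx A {m : T // j m = 0}).filter (fun f => x0 ∣ c - ∑ m, f m * u m.1) with hS0
    set G := (bx A T).filter (fun f => ∑ m, f m * (x0 ^ j m * u m) = c) with hG
    have hsplit : ∀ f ∈ G, c - ∑ m : {m : T // j m = 0}, f m.1 * u m.1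
        = x0 * ∑ m : {m : T // ¬ j m = 0}, f m.1 * (x0 ^ (j m.1 - 1) * u m.1) := by
      intro f hf
      rw [hG, mem_filter] at hf
      have h1 := Fintype.sum_subtype_add_sum_subtype (fun m => j m = 0)
        (fun m => f m * (x0 ^ j m * u m))
      rw [hf.2] at h1
      rw [← h1, mul_sum]
      have h2 : ∑ m : {m : T // j m = 0}, f m.1 * (x0 ^ j m.1 * u m.1)
          = ∑ m : {m : T // j m = 0}, f m.1 * u m.1 :=
        sum_congr rfl fun m _ => by rw [m.2, pow_zero, one_mul]
      rw [h2, add_sub_cancel_left]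
      refine sum_congr rfl fun m _ => ?_
      have h3 : j m.1 = (j m.1 - 1) + 1 := by have := m.2; omega
      conv_lhs => rw [h3]
      ring
    have hmaps : ∀ f ∈ G, (fun m : {m : T // j m = 0} => f m.1) ∈ S0 := by
      intro f hf
      have h1 := hsplit f hf
      rw [hG, mem_filter, mem_bx] at hf
      rw [hS0, mem_filter, mem_bx]
      exact ⟨fun m => hf.1 m.1, ⟨_, h1⟩⟩
    have hx0 : x0 ≠ 0 := by
      intro h; rw [h] at hx; simp at hx; omega
    have hfib : ∀ f0 ∈ S0, ((G.filter (fun f => (fun m : {m : T // j m = 0} => f m.1) = f0)).card : ℝ)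
        ≤ (4 * A : ℝ) ^ (Fintype.card {m : T // ¬ j m = 0} - 1) / (B : ℝ) ^ d := by
      intro f0 hf0
      rw [hS0, mem_filter] at hf0
      obtain ⟨c', hc'⟩ := hf0.2
      have h1 := ih {m : T // ¬ j m = 0} (fun m => j m.1 - 1) (fun m => u m.1) ?_ ?_ c'
      · refine le_trans ?_ h1
        have h2 : (G.filter (fun f => (fun m : {m : T // j m = 0} => f m.1) = f0)).card
            ≤ ((bx A {m : T // ¬ j m = 0}).filter
              (fun f => ∑ m, f m * (x0 ^ (j m.1 - 1) * u m.1) = c')).card := by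
          refine card_le_card_of_injOn (fun f => fun m => f m.1) ?_ ?_
          · intro f hf
            rw [mem_coe, mem_filter] at hf
            have h3 := hsplit f hf.1
            have h4 : ∑ m : {m : T // j m = 0}, f m.1 * u m.1 = ∑ m, f0 m * u m.1 :=
              sum_congr rfl fun m _ => by rw [← congrFun hf.2 m]
            rw [h4, hc'] at h3
            have h5 := mul_left_cancel₀ hx0 h3
            have h6 := hf.1
            rw [hG, mem_filter, mem_bx] at h6
            rw [mem_coe, mem_filter, mem_bx]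
            exact ⟨fun m => h6.1 m.1, h5.symm⟩
          · intro f hf g hg hfg
            rw [mem_coe, mem_filter] at hf hg
            funext m
            by_cases hm : j m = 0
            · have := congrFun (hf.2.trans hg.2.symm) ⟨m, hm⟩
              exact this
            · exact congrFun hfg ⟨m, hm⟩
        exact_mod_cast h2
      · intro k hk p hpp hpB
        obtain ⟨m, h2, h3⟩ := hp (k + 1) (by omega) p hpp hpB
        exact ⟨⟨m, by omega⟩, by change j m - 1 = k; omega, h3⟩
      · exact ⟨⟨m0, hm0⟩, by change j m0 - 1 = d; omega, hu⟩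
    have hS0c : (S0.card : ℝ) ≤ (4 * A : ℝ) ^ (Fintype.card {m : T // j m = 0}) / B := by
      refine card_mod {m : T // j m = 0} A B hB hBA (fun m => u m.1) x0 hx ?_ c
      intro p hpp hpB
      obtain ⟨m, h2, h3⟩ := hp 0 (by omega) p hpp hpB
      exact ⟨⟨m, h2⟩, h3⟩
    have hcard : Fintype.card {m : T // j m = 0} + Fintype.card {m : T // ¬ j m = 0}
        = Fintype.card T := by
      exact card_split T _
    have hpos : 1 ≤ Fintype.card {m : T // ¬ j m = 0} :=
      Fintype.card_pos_iff.2 ⟨⟨m0, hm0⟩⟩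
    calc (G.card : ℝ) = ∑ f0 ∈ S0,
          ((G.filter (fun f => (fun m : {m : T // j m = 0} => f m.1) = f0)).card : ℝ) := by
          exact_mod_cast card_eq_sum_card_fiberwise hmaps
      _ ≤ ∑ _f0 ∈ S0, (4 * A : ℝ) ^ (Fintype.card {m : T // ¬ j m = 0} - 1) / (B : ℝ) ^ d :=
          sum_le_sum hfib
      _ = S0.card * ((4 * A : ℝ) ^ (Fintype.card {m : T // ¬ j m = 0} - 1) / (B : ℝ) ^ d) := by
          rw [sum_const, nsmul_eq_mul]
      _ ≤ ((4 * A : ℝ) ^ (Fintype.card {m : T // j m = 0}) / B) *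
          ((4 * A : ℝ) ^ (Fintype.card {m : T // ¬ j m = 0} - 1) / (B : ℝ) ^ d) :=
          mul_le_mul_of_nonneg_right hS0c (by positivity)
      _ = _ := by
          rw [div_mul_div_comm, ← pow_add, ← pow_succ']
          congr 2
          omega

end Pool.Agent.Helper43.VA
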