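import Mathlib

/-!
# Integral points and forms: the definitions of the statement
-/

set_option autoImplicit false

namespace Pool.Agent.Helper43.VA

open MvPolynomial

/-- Primitive integer vectors; a rational point of `ℙ^n` (equivalently a `ℤ_S`-point) is given by
exactly one such vector up to sign. -/
def IsPrimitive {n : ℕ} (x : Fin (n + 1) → ℤ) : Prop :=
  ∀ p : ℕ, p.Prime → ∃ i, ¬ (p : ℤ) ∣ x i

/-- The height `max |x i|`. -/
def supNorm {n : ℕ} (x : Fin (n + 1) → ℤ) : ℕ := Finset.univ.sup fun i => (x i).natAbs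

/-- The forms of degree `d` with integer coefficients of absolute value at most `A`. -/
def forms (n d A : ℕ) : Set (MvPolynomial (Fin (n + 1)) ℤ) :=
  {F | F.IsHomogeneous d ∧ ∀ m, |F.coeff m| ≤ (A : ℤ)}

/-- The truncated counting function `N^(1)(D, x)` of `D = V(F)`. -/
noncomputable def N1 {n : ℕ} (S : Finset ℕ) (F : MvPolynomial (Fin (n + 1)) ℤ)
    (x : Fin (n + 1) → ℤ) : ℝ :=
  ∑ p ∈ (eval x F).natAbs.primeFactors \ S, Real.log p

/-- The forms `F` of degree `d` and size at most `A` which have a point `x ∈ U` off `D = V(F)` of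
height at most `A` with `N^(1)(D, x) < (d - b) h(x) + log A - log K`. -/
def violating {n : ℕ} (d : ℕ) (S : Finset ℕ) (U : Set (Fin (n + 1) → ℤ)) (b : ℝ) (A : ℕ) (K : ℝ) :
    Set (MvPolynomial (Fin (n + 1)) ℤ) :=
  {F | F ∈ forms n d A ∧ ∃ x ∈ U, supNorm x ≤ A ∧ eval x F ≠ 0 ∧
    N1 S F x < (d - b) * Real.log (supNorm x) + Real.log A - Real.log K}

end Pool.Agent.Helper43.VA
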