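import Pool.Agent.Helper43.VA.Main
import Pool.Agent.Helper43.VA.Defs

/-!
# From coefficient vectors to polynomials
-/

set_option autoImplicit false

open Finset

open scoped Classical

namespace Pool.Agent.Helper43.VA

open MvPolynomial

/-- the exponent -/
noncomputable def ex {n d : ℕ} (m : Ex n d) : Fin (n + 1) →₀ ℕ := Finsupp.equivFunOnFinite.symm m.1

theorem ex_inj {n d : ℕ} : Function.Injective (ex (n := n) (d := d)) := fun _ _ h =>
  Subtype.ext (Finsupp.equivFunOnFinite.symm.injective h)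

theorem ex_deg {n d : ℕ} (m : Ex n d) : (ex m).degree = d := by
  rw [Finsupp.degree_eq_sum]
  exact Ex_sum m

theorem exists_ex {n d : ℕ} {t : Fin (n + 1) →₀ ℕ} (ht : t.degree = d) : ∃ m : Ex n d, ex m = t := by
  refine ⟨⟨fun i => t i, ?_⟩, ?_⟩
  · rw [Finset.Nat.mem_antidiagonalTuple, ← Finsupp.degree_eq_sum, ht]
  · ext i; rfl

/-- the coefficient vector -/
noncomputable def cf {n : ℕ} (d : ℕ) (F : MvPolynomial (Fin (n + 1)) ℤ) : Ex n d → ℤ :=
  fun m => F.coeff (ex m)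

theorem eval_eq_ev {n d : ℕ} {F : MvPolynomial (Fin (n + 1)) ℤ} (hF : F.IsHomogeneous d)
    (x : Fin (n + 1) → ℤ) : eval x F = ev x (cf d F) := by
  rw [eval_eq']
  unfold ev
  have h1 : ∑ m : Ex n d, cf d F m * ∏ i, x i ^ m.1 i
      = ∑ t ∈ (univ : Finset (Ex n d)).map ⟨ex, ex_inj⟩, F.coeff t * ∏ i, x i ^ t i := by
    rw [sum_map]; rfl
  rw [h1]
  apply sum_subset
  · intro t ht
    rw [MvPolynomial.mem_support_iff] at ht
    have h2 : t.degree = d := by
      by_contra h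
      exact ht (hF.coeff_eq_zero h)
    obtain ⟨m, hm⟩ := exists_ex h2
    rw [mem_map]
    exact ⟨m, mem_univ _, hm⟩
  · intro t _ ht
    rw [MvPolynomial.notMem_support_iff.1 ht, zero_mul]

theorem cf_injOn {n d : ℕ} {F G : MvPolynomial (Fin (n + 1)) ℤ} (hF : F.IsHomogeneous d)
    (hG : G.IsHomogeneous d) (h : cf d F = cf d G) : F = G := by
  ext t
  by_cases ht : t.degree = d
  · obtain ⟨m, hm⟩ := exists_ex ht
    rw [← hm]
    exact congrFun h m
  · rw [hF.coeff_eq_zero ht, hG.coeff_eq_zero ht]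

/-- the form with given coefficients -/
noncomputable def fm {n d : ℕ} (f : Ex n d → ℤ) : MvPolynomial (Fin (n + 1)) ℤ :=
  ∑ m, monomial (ex m) (f m)

theorem fm_hom {n d : ℕ} (f : Ex n d → ℤ) : (fm f).IsHomogeneous d :=
  IsHomogeneous.sum _ _ _ fun m _ => isHomogeneous_monomial _ (ex_deg m)

theorem fm_coeff {n d : ℕ} (f : Ex n d → ℤ) (m : Ex n d) : (fm f).coeff (ex m) = f m := by
  unfold fm
  rw [coeff_sum, sum_eq_single m]
  · rw [coeff_monomial, if_pos rfl]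
  · intro k _ hk
    rw [coeff_monomial, if_neg fun h => hk (ex_inj h)]
  · intro h; exact absurd (mem_univ _) h

theorem cf_mem {n d A : ℕ} {F : MvPolynomial (Fin (n + 1)) ℤ} (hF : F ∈ forms n d A) :
    cf d F ∈ bx A (Ex n d) :=
  mem_bx.2 fun m => mem_Icc.2 (abs_le.1 (hF.2 (ex m)))

theorem fm_mem {n d A : ℕ} {f : Ex n d → ℤ} (hf : f ∈ bx A (Ex n d)) : fm f ∈ forms n d A := by
  refine ⟨fm_hom f, fun t => ?_⟩
  by_cases ht : t.degree = d
  · obtain ⟨m, hm⟩ := exists_ex ht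
    rw [← hm, fm_coeff]
    exact abs_le.2 (mem_Icc.1 (mem_bx.1 hf m))
  · rw [(fm_hom f).coeff_eq_zero ht, abs_zero]
    positivity

theorem forms_finite (n d A : ℕ) : (forms n d A).Finite := by
  refine Set.Finite.of_finite_image (f := cf d) ?_ ?_
  · apply Set.Finite.subset (bx A (Ex n d)).finite_toSet
    rintro _ ⟨F, hF, rfl⟩
    exact cf_mem hF
  · intro F hF G hG h
    exact cf_injOn hF.1 hG.1 h

theorem card_le_forms (n d A : ℕ) : (bx A (Ex n d)).card ≤ (forms n d A).ncard := by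
  rw [← Set.ncard_coe_finset]
  refine Set.ncard_le_ncard_of_injOn fm (fun f hf => fm_mem hf) ?_ (forms_finite n d A)
  intro f _ g _ h
  funext m
  rw [← fm_coeff f m, h, fm_coeff]

theorem rS_eq_exp {n : ℕ} (S : Finset ℕ) (F : MvPolynomial (Fin (n + 1)) ℤ)
    (x : Fin (n + 1) → ℤ) : (rS S (eval x F).natAbs : ℝ) = Real.exp (N1 S F x) := by
  unfold rS N1
  rw [Real.exp_sum]
  push_cast
  refine prod_congr rfl fun p hp => ?_
  rw [Real.exp_log]
  exact_mod_cast (Nat.prime_of_mem_primeFactors (mem_sdiff.1 hp).1).pos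

/-- the average statement -/
theorem main (n d : ℕ) (S : Finset ℕ) (a C₀ δ η : ℝ) (ha : 0 ≤ a) (hC₀ : 0 ≤ C₀) (hδ : 0 < δ)
    (hη : 0 < η) :
    ∃ C : ℝ, 0 < C ∧ ∀ U : Set (Fin (n + 1) → ℤ), (∀ x ∈ U, IsPrimitive x) →
      (∀ B : ℕ, 1 ≤ B → ({x ∈ U | supNorm x ≤ B}.ncard : ℝ) ≤ C₀ * (B : ℝ) ^ a) →
      ∀ A : ℕ, ∀ K : ℝ, 1 ≤ K →
      ((violating d S U (a + δ) A K).ncard : ℝ) ≤ C * K ^ (-(1 - η)) * (forms n d A).ncard := by
  obtain ⟨C, hC, h⟩ := main_vec n d S a C₀ δ η ha hC₀ hδ hη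
  refine ⟨C, hC, fun U hU hcount A K hK => ?_⟩
  have hK0 : 0 < K := by linarith
  have hcount' : ∀ B : ℕ, 1 ≤ B →
      ({x ∈ U | ∀ i, |x i| ≤ (B : ℤ)}.ncard : ℝ) ≤ C₀ * (B : ℝ) ^ a := by
    intro B hB
    have h1 : {x ∈ U | ∀ i, |x i| ≤ (B : ℤ)} = {x ∈ U | supNorm x ≤ B} := by
      ext x
      exact and_congr_right fun _ => nrm_le.symm
    rw [h1]
    exact hcount B hB
  have h1 := h U hU hcount' A K hK
  set V := (bx A (Ex n d)).filter (fun f => ∃ x ∈ U, nrm x ≤ A ∧ ev x f ≠ 0 ∧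
        (rS S (ev x f).natAbs : ℝ) < A * (nrm x : ℝ) ^ (d - a - δ) / K) with hV
  have h2 : (violating d S U (a + δ) A K).ncard ≤ V.card := by
    rw [← Set.ncard_coe_finset]
    refine Set.ncard_le_ncard_of_injOn (cf d) ?_ ?_ (finite_toSet V)
    · rintro F ⟨hF, x, hxU, hxA, hne, hlt⟩
      rw [hV, mem_coe, mem_filter]
      refine ⟨cf_mem hF, x, hxU, hxA, ?_, ?_⟩
      · rw [← eval_eq_ev hF.1]; exact hne
      · rw [← eval_eq_ev hF.1, rS_eq_exp]
        have hB : (0 : ℝ) < nrm x := by exact_mod_cast nrm_pos (hU x hxU)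
        have hA : (0 : ℝ) < A := by
          have : (nrm x : ℝ) ≤ A := by exact_mod_cast hxA
          linarith
        have h3 : (A : ℝ) * (nrm x : ℝ) ^ (d - a - δ) / K
            = Real.exp ((d - (a + δ)) * Real.log (nrm x) + Real.log A - Real.log K) := by
          rw [Real.exp_sub, Real.exp_add, Real.exp_log hA, Real.exp_log hK0, Real.rpow_def_of_pos hB,
            mul_comm (A : ℝ)]
          congr 3
          ring
        rw [h3]
        exact Real.exp_lt_exp.2 hlt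
    · rintro F ⟨hF, _⟩ G ⟨hG, _⟩ hFG
      exact cf_injOn hF.1 hG.1 hFG
  calc ((violating d S U (a + δ) A K).ncard : ℝ) ≤ V.card := by exact_mod_cast h2
    _ ≤ C * K ^ (-(1 - η)) * (bx A (Ex n d)).card := h1
    _ ≤ C * K ^ (-(1 - η)) * (forms n d A).ncard := by
        apply mul_le_mul_of_nonneg_left _ (by positivity)
        exact_mod_cast card_le_forms n d A

theorem count_prim (n B : ℕ) (hB : 1 ≤ B) :
    ({x : Fin (n + 1) → ℤ | IsPrimitive x ∧ supNorm x ≤ B}.ncard : ℝ)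
      ≤ (3 : ℝ) ^ (n + 1) * (B : ℝ) ^ ((n : ℝ) + 1) := by
  have h1 : {x : Fin (n + 1) → ℤ | IsPrimitive x ∧ supNorm x ≤ B}
      ⊆ (bx B (Fin (n + 1)) : Set (Fin (n + 1) → ℤ)) := by
    rintro x ⟨_, hx⟩
    rw [mem_coe, mem_bx]
    exact fun i => mem_Icc.2 (abs_le.1 (nrm_le.1 hx i))
  have h2 := Set.ncard_le_ncard h1 (finite_toSet _)
  rw [Set.ncard_coe_finset] at h2
  have h3 := card_bx B (Fin (n + 1))
  rw [Fintype.card_fin] at h3
  have hB' : (1 : ℝ) ≤ B := by exact_mod_cast hB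
  calc ({x : Fin (n + 1) → ℤ | IsPrimitive x ∧ supNorm x ≤ B}.ncard : ℝ)
      ≤ (bx B (Fin (n + 1))).card := by exact_mod_cast h2
    _ = (2 * B + 1 : ℝ) ^ (n + 1) := h3
    _ ≤ (3 * B : ℝ) ^ (n + 1) := by
        apply pow_le_pow_left₀ (by positivity); linarith
    _ = _ := by
        rw [mul_pow]
        congr 1
        rw [← Real.rpow_natCast]
        push_cast
        rfl

end Pool.Agent.Helper43.VA
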