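import Pool.Agent.Helper43.VA.Sum

/-!
# Assembly
-/

set_option autoImplicit false

open Finset

open scoped Classical

namespace Pool.Agent.Helper43.VA

/-- the forms that are bad at one point -/
theorem bad_at (n d : ℕ) (S : Finset ℕ) {a δ ε η Cr : ℝ}
    (hεη : ε ≤ η) (hεδ : ε * (2 * (a + δ)) ≤ δ) (hCr : 0 < Cr)
    (hrad : ∀ (N : ℕ) (R : ℝ), 0 < R → (((Icc 1 N).filter (fun c => (rS S c : ℝ) < R)).card : ℝ)
        ≤ Cr * ((N : ℝ) ^ ε * R ^ (1 - ε)))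
    (A : ℕ) (K : ℝ) (hK : 1 ≤ K) (x : Fin (n + 1) → ℤ) (hx : Prim x) (hxA : nrm x ≤ A) :
    (((bx A (Ex n d)).filter (fun f => ev x f ≠ 0 ∧
      (rS S (ev x f).natAbs : ℝ) < A * (nrm x : ℝ) ^ (d - a - δ) / K)).card : ℝ)
      ≤ (2 * Cr * (Fintype.card (Ex n d) : ℝ) ^ ε * 4 ^ (Fintype.card (Ex n d) - 1)) *
        (A : ℝ) ^ (Fintype.card (Ex n d)) * K ^ (-(1 - η)) * (nrm x : ℝ) ^ (-(a + δ / 2)) := by
  have hB1 : 1 ≤ nrm x := nrm_pos hx
  have hBr : (1 : ℝ) ≤ nrm x := by exact_mod_cast hB1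
  have hB0 : (0 : ℝ) < nrm x := by linarith
  have hA0 : (0 : ℝ) < A := by
    have : (nrm x : ℝ) ≤ A := by exact_mod_cast hxA
    linarith
  have hK0 : 0 < K := by linarith
  set M := Fintype.card (Ex n d) with hM
  have hM1 : 1 ≤ M := Fintype.card_pos
  have hM0 : (0 : ℝ) < M := by exact_mod_cast hM1
  set B := nrm x with hB
  set R : ℝ := A * (B : ℝ) ^ (d - a - δ) / K with hR
  have hR0 : 0 < R := by positivity
  set N : ℕ := M * A * B ^ d with hN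
  set G := (Icc 1 N).filter (fun c => (rS S c : ℝ) < R) with hG
  set cs : Finset ℤ := G.image (fun c : ℕ => (c : ℤ)) ∪ G.image (fun c : ℕ => -(c : ℤ)) with hcs
  have hcard : (cs.card : ℝ) ≤ 2 * G.card := by
    have h1 : cs.card ≤ G.card + G.card :=
      (card_union_le _ _).trans (Nat.add_le_add card_image_le card_image_le)
    have h2 : (cs.card : ℝ) ≤ G.card + G.card := by exact_mod_cast h1
    linarith
  have hmaps : ∀ f ∈ (bx A (Ex n d)).filter (fun f => ev x f ≠ 0 ∧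
      (rS S (ev x f).natAbs : ℝ) < R), ev x f ∈ cs := by
    intro f hf
    rw [mem_filter] at hf
    obtain ⟨h1, h2, h3⟩ := hf
    have h4 : (ev x f).natAbs ∈ G := by
      rw [hG, mem_filter, mem_Icc]
      exact ⟨⟨Int.natAbs_pos.2 h2, ev_le x h1⟩, h3⟩
    rw [hcs, mem_union, mem_image, mem_image]
    rcases Int.natAbs_eq (ev x f) with h5 | h5
    · exact Or.inl ⟨_, h4, h5.symm⟩
    · exact Or.inr ⟨_, h4, h5.symm⟩
  have hfib : ∀ c ∈ cs, ((((bx A (Ex n d)).filter (fun f => ev x f ≠ 0 ∧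
      (rS S (ev x f).natAbs : ℝ) < R)).filter (fun f => ev x f = c)).card : ℝ)
      ≤ (4 * A : ℝ) ^ (M - 1) / (B : ℝ) ^ d := by
    intro c _
    refine le_trans ?_ (card_ev hx hxA c)
    exact_mod_cast card_le_card fun f hf => by
      rw [mem_filter, mem_filter] at hf
      rw [mem_filter]
      exact ⟨hf.1.1, hf.2⟩
  have h1 : (((bx A (Ex n d)).filter (fun f => ev x f ≠ 0 ∧
      (rS S (ev x f).natAbs : ℝ) < R)).card : ℝ) ≤ cs.card * ((4 * A : ℝ) ^ (M - 1) / (B : ℝ) ^ d) := by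
    calc _ = ∑ c ∈ cs, ((((bx A (Ex n d)).filter (fun f => ev x f ≠ 0 ∧
      (rS S (ev x f).natAbs : ℝ) < R)).filter (fun f => ev x f = c)).card : ℝ) := by
          exact_mod_cast card_eq_sum_card_fiberwise hmaps
      _ ≤ ∑ _c ∈ cs, (4 * A : ℝ) ^ (M - 1) / (B : ℝ) ^ d := sum_le_sum hfib
      _ = _ := by rw [sum_const, nsmul_eq_mul]
  have h2 := hrad N R hR0
  rw [← hG] at h2
  refine h1.trans ?_
  have h3 : (cs.card : ℝ) ≤ 2 * (Cr * ((N : ℝ) ^ ε * R ^ (1 - ε))) := by linarith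
  refine (mul_le_mul_of_nonneg_right h3 (by positivity)).trans ?_
  have e1 : (N : ℝ) ^ ε = (M : ℝ) ^ ε * (A : ℝ) ^ ε * (B : ℝ) ^ (d * ε) := by
    rw [hN]
    push_cast
    rw [Real.mul_rpow (by positivity) (by positivity), Real.mul_rpow (by positivity) (by positivity),
      ← Real.rpow_natCast (B : ℝ) d, ← Real.rpow_mul (by positivity)]
  have e2 : R ^ (1 - ε) = (A : ℝ) ^ (1 - ε) * (B : ℝ) ^ ((d - a - δ) * (1 - ε)) * K ^ (-(1 - ε)) := by
    rw [hR, Real.div_rpow (by positivity) (by positivity), Real.mul_rpow (by positivity) (by positivity),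
      ← Real.rpow_mul (by positivity), Real.rpow_neg hK0.le, div_eq_mul_inv]
  have e3 : (4 * A : ℝ) ^ (M - 1) / (B : ℝ) ^ d = 4 ^ (M - 1) * (A : ℝ) ^ (M - 1) * (B : ℝ) ^ (-(d : ℝ)) := by
    rw [mul_pow, Real.rpow_neg (by positivity), Real.rpow_natCast, div_eq_mul_inv]
  have e4 : (A : ℝ) ^ ε * (A : ℝ) ^ (1 - ε) * (A : ℝ) ^ (M - 1) = (A : ℝ) ^ M := by
    rw [← Real.rpow_add hA0, add_sub_cancel, Real.rpow_one, ← pow_succ']
    congr 1
    omega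
  have e5 : (B : ℝ) ^ (d * ε) * (B : ℝ) ^ ((d - a - δ) * (1 - ε)) * (B : ℝ) ^ (-(d : ℝ))
      ≤ (B : ℝ) ^ (-(a + δ / 2)) := by
    rw [← Real.rpow_add hB0, ← Real.rpow_add hB0]
    apply Real.rpow_le_rpow_of_exponent_le hBr
    nlinarith
  have e6 : K ^ (-(1 - ε)) ≤ K ^ (-(1 - η)) := by
    apply Real.rpow_le_rpow_of_exponent_le hK
    linarith
  rw [e1, e2, e3]
  calc _ = (2 * Cr * (M : ℝ) ^ ε * 4 ^ (M - 1)) * ((A : ℝ) ^ ε * (A : ℝ) ^ (1 - ε) * (A : ℝ) ^ (M - 1))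
        * K ^ (-(1 - ε)) *
        ((B : ℝ) ^ (d * ε) * (B : ℝ) ^ ((d - a - δ) * (1 - ε)) * (B : ℝ) ^ (-(d : ℝ))) := by ring
    _ ≤ (2 * Cr * (M : ℝ) ^ ε * 4 ^ (M - 1)) * (A : ℝ) ^ M * K ^ (-(1 - η)) *
        (B : ℝ) ^ (-(a + δ / 2)) := by
      rw [e4]
      apply mul_le_mul _ e5 (by positivity) (by positivity)
      exact mul_le_mul_of_nonneg_left e6 (by positivity)

/-- the average statement for coefficient vectors -/
theorem main_vec (n d : ℕ) (S : Finset ℕ) (a C₀ δ η : ℝ) (ha : 0 ≤ a) (hC₀ : 0 ≤ C₀) (hδ : 0 < δ)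
    (hη : 0 < η) :
    ∃ C : ℝ, 0 < C ∧ ∀ U : Set (Fin (n + 1) → ℤ), (∀ x ∈ U, Prim x) →
      (∀ B : ℕ, 1 ≤ B → ({x ∈ U | ∀ i, |x i| ≤ (B : ℤ)}.ncard : ℝ) ≤ C₀ * (B : ℝ) ^ a) →
      ∀ A : ℕ, ∀ K : ℝ, 1 ≤ K →
      (((bx A (Ex n d)).filter (fun f => ∃ x ∈ U, nrm x ≤ A ∧ ev x f ≠ 0 ∧
        (rS S (ev x f).natAbs : ℝ) < A * (nrm x : ℝ) ^ (d - a - δ) / K)).card : ℝ)
        ≤ C * K ^ (-(1 - η)) * (bx A (Ex n d)).card := by
  set ε := min η (min 1 (δ / (2 * (a + δ)))) with hε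
  have had : 0 < 2 * (a + δ) := by linarith
  have hε0 : 0 < ε := lt_min hη (lt_min one_pos (by positivity))
  have hε1 : ε ≤ 1 := (min_le_right _ _).trans (min_le_left _ _)
  have hε2 : ε ≤ δ / (2 * (a + δ)) := (min_le_right _ _).trans (min_le_right _ _)
  have hε3 : ε * (2 * (a + δ)) ≤ δ := (le_div_iff₀ had).1 hε2
  obtain ⟨Cr, hCr, hrad⟩ := card_rad S hε0 hε1
  set M := Fintype.card (Ex n d) with hM
  have hM0 : (0 : ℝ) < M := by exact_mod_cast (Fintype.card_pos : 0 < Fintype.card (Ex n d))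
  have h2 : (2 : ℝ) ^ (a - (a + δ / 2)) < 1 :=
    Real.rpow_lt_one_of_one_lt_of_neg (by norm_num) (by linarith)
  have hinv : 0 < (1 - (2 : ℝ) ^ (a - (a + δ / 2)))⁻¹ := inv_pos.2 (by linarith)
  set E : ℝ := 2 * Cr * (M : ℝ) ^ ε * 4 ^ (M - 1) with hE
  have hE0 : 0 < E := by positivity
  set D : ℝ := C₀ * 2 ^ a * (1 - (2 : ℝ) ^ (a - (a + δ / 2)))⁻¹ with hD
  have hD0 : 0 ≤ D := by positivity
  refine ⟨E * D + 1, by positivity, fun U hU hcount A K hK => ?_⟩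
  have hK0 : 0 < K := by linarith
  set W : Finset (Fin (n + 1) → ℤ) :=
    (Fintype.piFinset fun _ : Fin (n + 1) => Icc (-(A : ℤ)) A).filter (fun x => x ∈ U) with hW
  have hsub : (bx A (Ex n d)).filter (fun f => ∃ x ∈ U, nrm x ≤ A ∧ ev x f ≠ 0 ∧
        (rS S (ev x f).natAbs : ℝ) < A * (nrm x : ℝ) ^ (d - a - δ) / K)
      ⊆ W.biUnion (fun x => (bx A (Ex n d)).filter (fun f => ev x f ≠ 0 ∧
        (rS S (ev x f).natAbs : ℝ) < A * (nrm x : ℝ) ^ (d - a - δ) / K)) := by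
    intro f hf
    rw [mem_filter] at hf
    obtain ⟨h1, x, hxU, hxA, h3⟩ := hf
    rw [mem_biUnion]
    refine ⟨x, ?_, mem_filter.2 ⟨h1, h3⟩⟩
    rw [hW, mem_filter, Fintype.mem_piFinset]
    exact ⟨fun i => mem_Icc.2 (abs_le.1 (nrm_le.1 hxA i)), hxU⟩
  have hWA : ∀ x ∈ W, nrm x ≤ A := by
    intro x hx
    rw [hW, mem_filter, Fintype.mem_piFinset] at hx
    exact nrm_le.2 fun i => abs_le.2 (mem_Icc.1 (hx.1 i))
  have hWU : ∀ x ∈ W, x ∈ U := fun x hx => (mem_filter.1 hx).2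
  have hsum := sum_nrm U hU a C₀ (a + δ / 2) hC₀ (by linarith) hcount (by linarith) W hWU
  rw [← hD] at hsum
  have hAM : (A : ℝ) ^ M ≤ (bx A (Ex n d)).card := by
    rw [card_bx]
    apply pow_le_pow_left₀ (by positivity)
    have : (0 : ℝ) ≤ A := by positivity
    linarith
  have hc := (card_le_card hsub).trans card_biUnion_le
  calc _ ≤ ∑ x ∈ W, (((bx A (Ex n d)).filter (fun f => ev x f ≠ 0 ∧
        (rS S (ev x f).natAbs : ℝ) < A * (nrm x : ℝ) ^ (d - a - δ) / K)).card : ℝ) := by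
        exact_mod_cast hc
    _ ≤ ∑ x ∈ W, E * (A : ℝ) ^ M * K ^ (-(1 - η)) * (nrm x : ℝ) ^ (-(a + δ / 2)) :=
        sum_le_sum fun x hx => bad_at n d S (min_le_left _ _) hε3 hCr hrad A K hK x
          (hU x (hWU x hx)) (hWA x hx)
    _ = E * (A : ℝ) ^ M * K ^ (-(1 - η)) * ∑ x ∈ W, (nrm x : ℝ) ^ (-(a + δ / 2)) := by
        rw [mul_sum]
    _ ≤ E * (A : ℝ) ^ M * K ^ (-(1 - η)) * D :=
        mul_le_mul_of_nonneg_left hsum (by positivity)
    _ = (E * D) * K ^ (-(1 - η)) * (A : ℝ) ^ M := by ring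
    _ ≤ (E * D + 1) * K ^ (-(1 - η)) * (bx A (Ex n d)).card := by
        apply mul_le_mul _ hAM (by positivity) (by positivity)
        apply mul_le_mul_of_nonneg_right _ (by positivity)
        linarith

end Pool.Agent.Helper43.VA
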