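import Mathlib

/-!
# Counting integers with a small radical
-/

set_option autoImplicit false

open Finset

namespace Pool.Agent.Helper43.VA

/-- the radical away from `S` -/
def rS (S : Finset ℕ) (c : ℕ) : ℕ := ∏ p ∈ c.primeFactors \ S, p

theorem rS_pos (S : Finset ℕ) (c : ℕ) : 0 < rS S c :=
  prod_pos fun _ hp => (Nat.prime_of_mem_primeFactors (mem_sdiff.1 hp).1).pos

/-- the summand -/
noncomputable def fr (ε : ℝ) (k : ℕ) : ℝ := (k : ℝ) ^ (-ε) / (rS ∅ k : ℝ)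

theorem fr_nonneg (ε : ℝ) (k : ℕ) : 0 ≤ fr ε k := by
  unfold fr; positivity

theorem fr_one (ε : ℝ) : fr ε 1 = 1 := by simp [fr, rS]

theorem fr_mul (ε : ℝ) {m n : ℕ} (h : Nat.Coprime m n) :
    fr ε (m * n) = fr ε m * fr ε n := by
  unfold fr rS
  rw [sdiff_empty, sdiff_empty, sdiff_empty, h.primeFactors_mul, prod_union h.disjoint_primeFactors]
  push_cast
  rw [Real.mul_rpow (Nat.cast_nonneg _) (Nat.cast_nonneg _), mul_div_mul_comm]

theorem fr_pow (ε : ℝ) {p : ℕ} (hp : p.Prime) (n : ℕ) :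
    fr ε (p ^ (n + 1)) = (p : ℝ)⁻¹ * ((p : ℝ) ^ (-ε)) ^ (n + 1) := by
  unfold fr rS
  rw [sdiff_empty, Nat.primeFactors_prime_pow (by omega) hp, prod_singleton, Nat.cast_pow,
    ← Real.rpow_natCast, ← Real.rpow_mul (Nat.cast_nonneg _), ← Real.rpow_natCast,
    ← Real.rpow_mul (Nat.cast_nonneg _), div_eq_inv_mul, mul_comm (-ε)]

theorem q_lt {ε : ℝ} (hε : 0 < ε) {p : ℕ} (hp : p.Prime) :
    0 < (p : ℝ) ^ (-ε) ∧ (p : ℝ) ^ (-ε) ≤ 2 ^ (-ε) ∧ (2 : ℝ) ^ (-ε) < 1 := by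
  have h0 : (0 : ℝ) < p := by exact_mod_cast hp.pos
  refine ⟨Real.rpow_pos_of_pos h0 _, ?_, ?_⟩
  · exact Real.rpow_le_rpow_of_nonpos (by norm_num) (by exact_mod_cast hp.two_le) (by linarith)
  · exact Real.rpow_lt_one_of_one_lt_of_neg (by norm_num) (by linarith)

theorem fr_summable {ε : ℝ} (hε : 0 < ε) {p : ℕ} (hp : p.Prime) :
    Summable (fun n : ℕ => ‖fr ε (p ^ n)‖) := by
  obtain ⟨h1, h2, h3⟩ := q_lt hε hp
  rw [← summable_nat_add_iff 1]
  have h4 : (fun n : ℕ => ‖fr ε (p ^ (n + 1))‖)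
      = fun n => ((p : ℝ)⁻¹ * (p : ℝ) ^ (-ε)) * ((p : ℝ) ^ (-ε)) ^ n := by
    funext n
    rw [Real.norm_of_nonneg (fr_nonneg _ _), fr_pow ε hp]
    ring
  rw [h4]
  exact (summable_geometric_of_lt_one h1.le (by linarith)).mul_left _

theorem fr_tsum {ε : ℝ} (hε : 0 < ε) {p : ℕ} (hp : p.Prime) :
    ∑' n, fr ε (p ^ n) ≤ 1 + (1 - (2 : ℝ) ^ (-ε))⁻¹ * (p : ℝ) ^ (-(1 + ε)) := by
  obtain ⟨h1, h2, h3⟩ := q_lt hε hp
  have h0 : (0 : ℝ) < p := by exact_mod_cast hp.pos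
  have hs : Summable (fun n : ℕ => fr ε (p ^ n)) := (fr_summable hε hp).of_norm
  rw [hs.tsum_eq_zero_add, pow_zero, fr_one]
  have h4 : (fun n : ℕ => fr ε (p ^ (n + 1)))
      = fun n => ((p : ℝ)⁻¹ * (p : ℝ) ^ (-ε)) * ((p : ℝ) ^ (-ε)) ^ n := by
    funext n
    rw [fr_pow ε hp]
    ring
  rw [h4, tsum_mul_left, tsum_geometric_of_lt_one h1.le (by linarith)]
  have h5 : (p : ℝ)⁻¹ * (p : ℝ) ^ (-ε) = (p : ℝ) ^ (-(1 + ε)) := by
    rw [← Real.rpow_neg_one, ← Real.rpow_add h0]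
    congr 1; ring
  rw [h5, mul_comm]
  have h6 : (1 - (p : ℝ) ^ (-ε))⁻¹ ≤ (1 - (2 : ℝ) ^ (-ε))⁻¹ := by
    apply inv_anti₀ <;> linarith
  have h7 : 0 < (p : ℝ) ^ (-(1 + ε)) := Real.rpow_pos_of_pos h0 _
  linarith [mul_le_mul_of_nonneg_right h6 h7.le]

/-- the sum of `k ^ (-ε) / rad k` is bounded -/
theorem fr_sum {ε : ℝ} (hε : 0 < ε) : ∃ C : ℝ, 0 < C ∧ ∀ N : ℕ, ∑ k ∈ Icc 1 N, fr ε k ≤ C := by
  have h3 : (2 : ℝ) ^ (-ε) < 1 := Real.rpow_lt_one_of_one_lt_of_neg (by norm_num) (by linarith)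
  set D := (1 - (2 : ℝ) ^ (-ε))⁻¹ with hD
  have hD0 : 0 < D := inv_pos.2 (by linarith)
  have hsum : Summable (fun n : ℕ => (n : ℝ) ^ (-(1 + ε))) :=
    Real.summable_nat_rpow.2 (by linarith)
  refine ⟨Real.exp (D * ∑' n : ℕ, (n : ℝ) ^ (-(1 + ε))), Real.exp_pos _, fun N => ?_⟩
  obtain ⟨-, hHS⟩ := EulerProduct.summable_and_hasSum_smoothNumbers_prod_primesBelow_tsum
    (f := fr ε) (fr_one ε) (fun h => fr_mul ε h) (fun hp => fr_summable hε hp) (N + 1)
  have h1 : ∑ k ∈ Icc 1 N, fr ε k ≤ ∏ p ∈ (N + 1).primesBelow, ∑' n, fr ε (p ^ n) := by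
    have hmem : ∀ k ∈ Icc 1 N, k ∈ Nat.smoothNumbers (N + 1) := by
      intro k hk
      rw [mem_Icc] at hk
      rw [Nat.mem_smoothNumbers]
      refine ⟨by omega, fun p hp => ?_⟩
      have := Nat.le_of_mem_primeFactorsList hp
      omega
    have h2 := sum_le_hasSum ((Icc 1 N).attach.map
      ⟨fun k => (⟨k.1, hmem k.1 k.2⟩ : Nat.smoothNumbers (N + 1)), fun a b h => by
        have := congrArg Subtype.val h
        exact Subtype.ext this⟩) (fun i _ => fr_nonneg ε _) hHS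
    rw [sum_map] at h2
    rw [← sum_attach]
    exact h2
  refine h1.trans ?_
  calc ∏ p ∈ (N + 1).primesBelow, ∑' n, fr ε (p ^ n)
      ≤ ∏ p ∈ (N + 1).primesBelow, Real.exp (D * (p : ℝ) ^ (-(1 + ε))) := by
        refine prod_le_prod (fun p _ => tsum_nonneg fun n => fr_nonneg _ _) fun p hp => ?_
        refine (fr_tsum hε (Nat.prime_of_mem_primesBelow hp)).trans ?_
        have := Real.add_one_le_exp (D * (p : ℝ) ^ (-(1 + ε)))
        linarith
    _ = Real.exp (D * ∑ p ∈ (N + 1).primesBelow, (p : ℝ) ^ (-(1 + ε))) := by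
        rw [← Real.exp_sum, mul_sum]
    _ ≤ _ := by
        apply Real.exp_le_exp.2
        exact mul_le_mul_of_nonneg_left (hsum.sum_le_tsum _ fun n _ =>
          Real.rpow_nonneg (Nat.cast_nonneg _) _) hD0.le

theorem rS_dvd (S : Finset ℕ) (c : ℕ) : rS S c ∣ c :=
  (prod_dvd_prod_of_subset _ _ _ sdiff_subset).trans (Nat.prod_primeFactors_dvd c)

theorem rS_dvd_rS (S : Finset ℕ) {k c : ℕ} (hc : c ≠ 0) (h : k ∣ c) : rS S k ∣ rS S c :=
  prod_dvd_prod_of_subset _ _ _ (sdiff_subset_sdiff (Nat.primeFactors_mono h hc) subset_rfl)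

theorem rS_inv_le (S : Finset ℕ) (k : ℕ) :
    (1 : ℝ) / rS S k ≤ (∏ p ∈ S, max 1 p : ℕ) * (1 / (rS ∅ k : ℝ)) := by
  have h1 : rS ∅ k ≤ rS S k * ∏ p ∈ S, max 1 p := by
    unfold rS
    rw [sdiff_empty, ← prod_sdiff (inter_subset_left : k.primeFactors ∩ S ⊆ k.primeFactors),
      sdiff_inter_self_left]
    refine Nat.mul_le_mul_left _ ?_
    calc ∏ p ∈ k.primeFactors ∩ S, p ≤ ∏ p ∈ k.primeFactors ∩ S, max 1 p :=
          prod_le_prod' fun p _ => le_max_right _ _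
      _ ≤ ∏ p ∈ S, max 1 p := prod_le_prod_of_subset_of_one_le' inter_subset_right
          fun p _ _ => le_max_left _ _
  have h2 : (0 : ℝ) < rS S k := by exact_mod_cast rS_pos S k
  have h3 : (0 : ℝ) < rS ∅ k := by exact_mod_cast rS_pos ∅ k
  rw [mul_one_div, div_le_div_iff₀ h2 h3, one_mul, mul_comm]
  exact_mod_cast h1

/-- few integers have a small radical away from `S` -/
theorem card_rad (S : Finset ℕ) {ε : ℝ} (hε : 0 < ε) (hε1 : ε ≤ 1) :
    ∃ C : ℝ, 0 < C ∧ ∀ (N : ℕ) (R : ℝ), 0 < R →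
      (((Icc 1 N).filter (fun c => (rS S c : ℝ) < R)).card : ℝ)
        ≤ C * ((N : ℝ) ^ ε * R ^ (1 - ε)) := by
  obtain ⟨C, hC, hsum⟩ := fr_sum hε
  set P : ℝ := ((∏ p ∈ S, max 1 p : ℕ) : ℝ) with hP
  have hP1 : 0 < P := by
    rw [hP]
    exact_mod_cast prod_pos fun p _ => lt_of_lt_of_le Nat.one_pos (le_max_left 1 p)
  refine ⟨P * C, by positivity, fun N R hR => ?_⟩
  set M : ℕ → ℕ := fun k => ⌊min (N : ℝ) (k * R) / (k * rS S k)⌋₊ with hM
  have h1 : (Icc 1 N).filter (fun c => (rS S c : ℝ) < R)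
      ⊆ (Icc 1 N).biUnion (fun k => (Icc 1 (M k)).image (fun m => k * rS S k * m)) := by
    intro c hc
    rw [mem_filter, mem_Icc] at hc
    obtain ⟨⟨hc1, hcN⟩, hcR⟩ := hc
    have hc0 : c ≠ 0 := by omega
    obtain ⟨k, hk⟩ := rS_dvd S c
    have hk0 : k ≠ 0 := by
      intro h; rw [h, mul_zero] at hk; exact hc0 hk
    have hkc : k ∣ c := ⟨rS S c, by rw [mul_comm]; exact hk⟩
    obtain ⟨m, hm⟩ := rS_dvd_rS S hc0 hkc
    have hm0 : m ≠ 0 := by
      intro h; rw [h, mul_zero] at hm; exact (rS_pos S c).ne' hm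
    have hcm : c = k * rS S k * m := by
      calc c = rS S c * k := hk
        _ = rS S k * m * k := by rw [hm]
        _ = _ := by ring
    rw [mem_biUnion]
    refine ⟨k, ?_, ?_⟩
    · rw [mem_Icc]
      exact ⟨Nat.one_le_iff_ne_zero.2 hk0, (Nat.le_of_dvd (by omega) hkc).trans hcN⟩
    · rw [mem_image]
      refine ⟨m, ?_, hcm.symm⟩
      rw [mem_Icc]
      refine ⟨Nat.one_le_iff_ne_zero.2 hm0, ?_⟩
      rw [hM]
      apply Nat.le_floor
      have hk0' : (0 : ℝ) < k := by exact_mod_cast Nat.pos_of_ne_zero hk0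
      have hr0 : (0 : ℝ) < rS S k := by exact_mod_cast rS_pos S k
      rw [le_div_iff₀ (by positivity)]
      have e1 : (m : ℝ) * (k * rS S k) = c := by
        rw [hcm]; push_cast; ring
      rw [e1]
      apply le_min
      · exact_mod_cast hcN
      · have e2 : (c : ℝ) = rS S c * k := by exact_mod_cast hk
        rw [e2, mul_comm]
        exact mul_le_mul_of_nonneg_left hcR.le hk0'.le
  have h2 : ((((Icc 1 N).filter (fun c => (rS S c : ℝ) < R)).card : ℕ) : ℝ)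
      ≤ ∑ k ∈ Icc 1 N, (M k : ℝ) := by
    have h3 := (card_le_card h1).trans (card_biUnion_le)
    have h4 : ∑ k ∈ Icc 1 N, ((Icc 1 (M k)).image (fun m => k * rS S k * m)).card
        ≤ ∑ k ∈ Icc 1 N, M k := by
      refine sum_le_sum fun k _ => card_image_le.trans ?_
      rw [Nat.card_Icc]; omega
    exact_mod_cast h3.trans h4
  refine h2.trans ?_
  calc ∑ k ∈ Icc 1 N, (M k : ℝ)
      ≤ ∑ k ∈ Icc 1 N, ((N : ℝ) ^ ε * R ^ (1 - ε)) * (P * fr ε k) := by
        refine sum_le_sum fun k hk => ?_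
        rw [mem_Icc] at hk
        have hk0 : (0 : ℝ) < k := by exact_mod_cast hk.1
        have hr0 : (0 : ℝ) < rS S k := by exact_mod_cast rS_pos S k
        have e0 : 0 ≤ min (N : ℝ) (k * R) := le_min (Nat.cast_nonneg _) (by positivity)
        have e1 : (M k : ℝ) ≤ min (N : ℝ) (k * R) / (k * rS S k) :=
          Nat.floor_le (div_nonneg e0 (by positivity))
        have e2 : min (N : ℝ) (k * R) ≤ (N : ℝ) ^ ε * (k * R) ^ (1 - ε) := by
          rcases e0.eq_or_lt with h | h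
          · rw [← h]; positivity
          · calc min (N : ℝ) (k * R) = (min (N : ℝ) (k * R)) ^ ε * (min (N : ℝ) (k * R)) ^ (1 - ε) := by
                  rw [← Real.rpow_add h, add_sub_cancel, Real.rpow_one]
              _ ≤ _ := by
                  apply mul_le_mul
                  · exact Real.rpow_le_rpow e0 (min_le_left _ _) hε.le
                  · exact Real.rpow_le_rpow e0 (min_le_right _ _) (by linarith)
                  · positivity
                  · positivity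
        have e3 := rS_inv_le S k
        rw [← hP] at e3
        calc (M k : ℝ) ≤ min (N : ℝ) (k * R) / (k * rS S k) := e1
          _ ≤ ((N : ℝ) ^ ε * (k * R) ^ (1 - ε)) / (k * rS S k) :=
              div_le_div_of_nonneg_right e2 (by positivity)
          _ = ((N : ℝ) ^ ε * (k * R) ^ (1 - ε)) / k * (1 / rS S k) := by
              field_simp
          _ ≤ ((N : ℝ) ^ ε * (k * R) ^ (1 - ε)) / k * (P * (1 / (rS ∅ k : ℝ))) :=
              mul_le_mul_of_nonneg_left e3 (by positivity)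
          _ = _ := by
              unfold fr
              rw [Real.mul_rpow hk0.le hR.le]
              have e4 : (k : ℝ) ^ (1 - ε) = k * (k : ℝ) ^ (-ε) := by
                rw [sub_eq_add_neg, Real.rpow_add hk0, Real.rpow_one]
              rw [e4]
              field_simp
    _ = ((N : ℝ) ^ ε * R ^ (1 - ε)) * P * ∑ k ∈ Icc 1 N, fr ε k := by
        rw [mul_sum]
        exact sum_congr rfl fun k _ => by ring
    _ ≤ ((N : ℝ) ^ ε * R ^ (1 - ε)) * P * C :=
        mul_le_mul_of_nonneg_left (hsum N) (by positivity)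
    _ = _ := by ring

end Pool.Agent.Helper43.VA
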