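import Pool.Agent.Helper43.VA.Cnt
import Pool.Agent.Helper43.VA.Rad

/-!
# The sum over the points, and the dictionary between forms and coefficient vectors
-/

set_option autoImplicit false

open Finset

open scoped Classical

namespace Pool.Agent.Helper43.VA

/-- the sup norm of an integer vector -/
def nrm {n : ℕ} (x : Fin (n + 1) → ℤ) : ℕ := univ.sup fun i => (x i).natAbs

theorem nrm_le {n : ℕ} {x : Fin (n + 1) → ℤ} {B : ℕ} : nrm x ≤ B ↔ ∀ i, |x i| ≤ (B : ℤ) := by
  rw [nrm, Finset.sup_le_iff]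
  constructor
  · intro h i
    have := h i (mem_univ i)
    rw [Int.abs_eq_natAbs]; exact_mod_cast this
  · intro h i _
    have := h i
    rw [Int.abs_eq_natAbs] at this; exact_mod_cast this

theorem exists_nrm {n : ℕ} (x : Fin (n + 1) → ℤ) : ∃ i, (x i).natAbs = nrm x := by
  obtain ⟨i, _, h⟩ := exists_mem_eq_sup univ univ_nonempty (fun i => (x i).natAbs)
  exact ⟨i, h.symm⟩

/-- primitive vectors -/
def Prim {n : ℕ} (x : Fin (n + 1) → ℤ) : Prop := ∀ p : ℕ, p.Prime → ∃ i, ¬ (p : ℤ) ∣ x i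

theorem nrm_pos {n : ℕ} {x : Fin (n + 1) → ℤ} (hx : Prim x) : 1 ≤ nrm x := by
  obtain ⟨i, hi⟩ := hx 2 Nat.prime_two
  by_contra h
  have h0 : nrm x = 0 := by omega
  have h1 : (x i).natAbs ≤ nrm x := le_sup (f := fun i => (x i).natAbs) (mem_univ i)
  rw [h0] at h1
  have h2 : x i = 0 := by
    have : (x i).natAbs = 0 := by omega
    exact Int.natAbs_eq_zero.1 this
  exact hi (by rw [h2]; exact dvd_zero _)

/-- the sum of `‖x‖ ^ (-s)` over a sparse set -/
theorem sum_nrm {n : ℕ} (U : Set (Fin (n + 1) → ℤ)) (hU : ∀ x ∈ U, Prim x) (a C₀ s : ℝ)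
    (hC₀ : 0 ≤ C₀) (has : a < s)
    (hcount : ∀ B : ℕ, 1 ≤ B → ({x ∈ U | ∀ i, |x i| ≤ (B : ℤ)}.ncard : ℝ) ≤ C₀ * (B : ℝ) ^ a)
    (hs : 0 ≤ s) (W : Finset (Fin (n + 1) → ℤ)) (hW : ∀ x ∈ W, x ∈ U) :
    ∑ x ∈ W, (nrm x : ℝ) ^ (-s) ≤ C₀ * 2 ^ a * (1 - (2 : ℝ) ^ (a - s))⁻¹ := by
  have h2 : (2 : ℝ) ^ (a - s) < 1 := Real.rpow_lt_one_of_one_lt_of_neg (by norm_num) (by linarith)
  have h20 : (0 : ℝ) < 2 ^ (a - s) := Real.rpow_pos_of_pos (by norm_num) _
  set L := W.sup nrm with hL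
  have hmaps : ∀ x ∈ W, Nat.log 2 (nrm x) ∈ range (L + 1) := by
    intro x hx
    rw [mem_range]
    have h1 : Nat.log 2 (nrm x) ≤ nrm x := Nat.log_le_self _ _
    have h3 : nrm x ≤ L := le_sup hx
    omega
  rw [← sum_fiberwise_of_maps_to hmaps]
  have hk : ∀ k ∈ range (L + 1), ∑ x ∈ W with Nat.log 2 (nrm x) = k, (nrm x : ℝ) ^ (-s)
      ≤ C₀ * 2 ^ a * ((2 : ℝ) ^ (a - s)) ^ k := by
    intro k _
    have h3 : ∀ x ∈ W.filter (fun x => Nat.log 2 (nrm x) = k), (nrm x : ℝ) ^ (-s)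
        ≤ ((2 : ℝ) ^ k) ^ (-s) := by
      intro x hx
      rw [mem_filter] at hx
      apply Real.rpow_le_rpow_of_nonpos (by positivity)
      · have := Nat.pow_log_le_self 2 (x := nrm x) (by have := nrm_pos (hU x (hW x hx.1)); omega)
        rw [hx.2] at this
        exact_mod_cast this
      · linarith
    have h4 : ((W.filter (fun x => Nat.log 2 (nrm x) = k)).card : ℝ)
        ≤ C₀ * ((2 : ℝ) ^ (k + 1)) ^ a := by
      have h5 := hcount (2 ^ (k + 1)) (Nat.one_le_two_pow)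
      push_cast at h5
      refine le_trans ?_ h5
      have h6 : (W.filter (fun x => Nat.log 2 (nrm x) = k)).card
          = (↑(W.filter (fun x => Nat.log 2 (nrm x) = k)) : Set (Fin (n + 1) → ℤ)).ncard :=
        (Set.ncard_coe_finset _).symm
      rw [h6]
      have hfin : {x : Fin (n + 1) → ℤ | x ∈ U ∧ ∀ i, |x i| ≤ (2 : ℤ) ^ (k + 1)}.Finite := by
        apply Set.Finite.subset (s := (Fintype.piFinset fun _ : Fin (n + 1) =>
          Icc (-(2 : ℤ) ^ (k + 1)) (2 ^ (k + 1)) : Finset (Fin (n + 1) → ℤ)))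
        · exact Finset.finite_toSet _
        · intro x hx
          rw [mem_coe, Fintype.mem_piFinset]
          intro i
          rw [mem_Icc]
          have := abs_le.1 (hx.2 i)
          exact this
      have h7 : (↑(W.filter (fun x => Nat.log 2 (nrm x) = k)) : Set (Fin (n + 1) → ℤ))
          ⊆ {x : Fin (n + 1) → ℤ | x ∈ U ∧ ∀ i, |x i| ≤ (2 : ℤ) ^ (k + 1)} := by
        intro x hx
        rw [mem_coe, mem_filter] at hx
        refine ⟨hW x hx.1, ?_⟩
        have h8 : nrm x ≤ 2 ^ (k + 1) := by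
          have := Nat.lt_pow_succ_log_self (b := 2) (by norm_num) (nrm x)
          rw [hx.2] at this
          exact this.le
        have h9 := nrm_le.1 h8
        push_cast at h9
        exact h9
      exact_mod_cast Set.ncard_le_ncard h7 hfin
    calc ∑ x ∈ W with Nat.log 2 (nrm x) = k, (nrm x : ℝ) ^ (-s)
        ≤ ∑ x ∈ W with Nat.log 2 (nrm x) = k, ((2 : ℝ) ^ k) ^ (-s) := sum_le_sum h3
      _ = (W.filter (fun x => Nat.log 2 (nrm x) = k)).card * ((2 : ℝ) ^ k) ^ (-s) := by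
          rw [sum_const, nsmul_eq_mul]
      _ ≤ (C₀ * ((2 : ℝ) ^ (k + 1)) ^ a) * ((2 : ℝ) ^ k) ^ (-s) :=
          mul_le_mul_of_nonneg_right h4 (by positivity)
      _ = _ := by
          rw [pow_succ, Real.mul_rpow (by positivity) (by norm_num), ← Real.rpow_natCast 2 k,
            ← Real.rpow_natCast ((2 : ℝ) ^ (a - s)) k, ← Real.rpow_mul (by norm_num),
            ← Real.rpow_mul (by norm_num), ← Real.rpow_mul (by norm_num)]
          have : (2 : ℝ) ^ ((a - s) * k) = 2 ^ ((k : ℝ) * a) * 2 ^ ((k : ℝ) * -s) := by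
            rw [← Real.rpow_add (by norm_num)]; congr 1; ring
          rw [this]; ring
  calc _ ≤ ∑ k ∈ range (L + 1), C₀ * 2 ^ a * ((2 : ℝ) ^ (a - s)) ^ k := sum_le_sum hk
    _ = C₀ * 2 ^ a * ∑ k ∈ range (L + 1), ((2 : ℝ) ^ (a - s)) ^ k := by rw [mul_sum]
    _ ≤ C₀ * 2 ^ a * (1 - (2 : ℝ) ^ (a - s))⁻¹ := by
        apply mul_le_mul_of_nonneg_left _ (by positivity)
        rw [← tsum_geometric_of_lt_one h20.le h2]
        exact (summable_geometric_of_lt_one h20.le h2).sum_le_tsum _ fun _ _ => by positivity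

/-- the exponents -/
abbrev Ex (n d : ℕ) : Type := {m : Fin (n + 1) → ℕ // m ∈ Finset.Nat.antidiagonalTuple (n + 1) d}

/-- the value -/
def ev {n d : ℕ} (x : Fin (n + 1) → ℤ) (f : Ex n d → ℤ) : ℤ := ∑ m, f m * ∏ i, x i ^ m.1 i

theorem Ex_sum {n d : ℕ} (m : Ex n d) : ∑ i, m.1 i = d := Finset.Nat.mem_antidiagonalTuple.1 m.2

/-- the number of forms with given value -/
theorem card_ev {n d A : ℕ} {x : Fin (n + 1) → ℤ} (hx : Prim x) (hA : nrm x ≤ A) (c : ℤ) :
    (((bx A (Ex n d)).filter (fun f => ev x f = c)).card : ℝ)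
      ≤ (4 * A : ℝ) ^ (Fintype.card (Ex n d) - 1) / (nrm x : ℝ) ^ d := by
  obtain ⟨i0, hi0⟩ := exists_nrm x
  have h1 := card_val A (nrm x) (nrm_pos hx) hA (x i0) hi0 d (Ex n d) (fun m => m.1 i0)
    (fun m => ∏ i ∈ univ.erase i0, x i ^ m.1 i) ?_ ?_ c
  · have h2 : ∀ f : Ex n d → ℤ, ∑ m, f m * (x i0 ^ m.1 i0 * ∏ i ∈ univ.erase i0, x i ^ m.1 i)
        = ev x f := by
      intro f
      unfold ev
      refine sum_congr rfl fun m _ => ?_
      rw [mul_prod_erase univ (fun i => x i ^ m.1 i) (mem_univ i0)]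
    simp only [h2] at h1
    exact h1
  · intro k hk p hp hpB
    obtain ⟨i, hi⟩ := hx p hp
    have hne : i ≠ i0 := by
      intro h
      rw [h] at hi
      apply hi
      rw [← hi0] at hpB
      exact Int.natCast_dvd.2 hpB
    refine ⟨⟨Function.update (Function.update 0 i (d - k)) i0 k, ?_⟩, ?_, ?_⟩
    · rw [Finset.Nat.mem_antidiagonalTuple]
      rw [← add_sum_erase univ _ (mem_univ i0), Function.update_self,
        ← add_sum_erase (univ.erase i0) _ (mem_erase.2 ⟨hne, mem_univ i⟩),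
        Function.update_of_ne hne, Function.update_self]
      rw [sum_eq_zero]
      · omega
      · intro l hl
        rw [mem_erase, mem_erase] at hl
        rw [Function.update_of_ne hl.2.1, Function.update_of_ne hl.1]
        rfl
    · exact Function.update_self ..
    · change ¬ (p : ℤ) ∣ ∏ l ∈ univ.erase i0, x l ^
        (Function.update (Function.update (0 : Fin (n + 1) → ℕ) i (d - k)) i0 k) l
      rw [← mul_prod_erase (univ.erase i0) _ (mem_erase.2 ⟨hne, mem_univ i⟩),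
        Function.update_of_ne hne, Function.update_self, prod_eq_one]
      · rw [mul_one]
        intro h
        exact hi ((Nat.prime_iff_prime_int.1 hp).dvd_of_dvd_pow h)
      · intro l hl
        rw [mem_erase, mem_erase] at hl
        rw [Function.update_of_ne hl.2.1, Function.update_of_ne hl.1, Pi.zero_apply, pow_zero]
  · refine ⟨⟨Function.update 0 i0 d, ?_⟩, ?_, ?_⟩
    · rw [Finset.Nat.mem_antidiagonalTuple]
      rw [← add_sum_erase univ _ (mem_univ i0), Function.update_self, sum_eq_zero]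
      · omega
      · intro l hl
        rw [mem_erase] at hl
        rw [Function.update_of_ne hl.1]
        rfl
    · exact Function.update_self ..
    · refine prod_eq_one fun l hl => ?_
      rw [mem_erase] at hl
      change x l ^ (Function.update 0 i0 d : Fin (n + 1) → ℕ) l = 1
      rw [Function.update_of_ne hl.1, Pi.zero_apply, pow_zero]

theorem ev_le {n d A : ℕ} (x : Fin (n + 1) → ℤ) {f : Ex n d → ℤ} (hf : f ∈ bx A (Ex n d)) :
    (ev x f).natAbs ≤ Fintype.card (Ex n d) * A * nrm x ^ d := by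
  have h1 : |ev x f| ≤ ∑ _m : Ex n d, (A : ℤ) * (nrm x : ℤ) ^ d := by
    unfold ev
    refine (abs_sum_le_sum_abs _ _).trans (sum_le_sum fun m _ => ?_)
    rw [abs_mul, abs_prod]
    have h2 : |f m| ≤ (A : ℤ) := by
      have := mem_bx.1 hf m
      rw [mem_Icc] at this
      exact abs_le.2 this
    have h3 : ∏ i, |x i ^ m.1 i| ≤ (nrm x : ℤ) ^ d := by
      have h5 : (nrm x : ℤ) ^ d = ∏ i, (nrm x : ℤ) ^ m.1 i := by
        rw [prod_pow_eq_pow_sum, Ex_sum m]
      rw [h5]
      refine prod_le_prod (fun i _ => abs_nonneg _) fun i _ => ?_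
      rw [abs_pow]
      exact pow_le_pow_left₀ (abs_nonneg _) (nrm_le.1 le_rfl i) _
    exact mul_le_mul h2 h3 (prod_nonneg fun i _ => abs_nonneg _) (by positivity)
  rw [sum_const, card_univ, nsmul_eq_mul] at h1
  have h4 : ((ev x f).natAbs : ℤ) ≤ ((Fintype.card (Ex n d) * A * nrm x ^ d : ℕ) : ℤ) := by
    rw [← Int.abs_eq_natAbs]
    push_cast
    linarith
  exact_mod_cast h4

instance {n d : ℕ} : Nonempty (Ex n d) :=
  ⟨⟨Function.update 0 0 d, by
    rw [Finset.Nat.mem_antidiagonalTuple]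
    rw [← add_sum_erase univ _ (mem_univ 0), Function.update_self, sum_eq_zero]
    · omega
    · intro l hl
      rw [mem_erase] at hl
      rw [Function.update_of_ne hl.1]
      rfl⟩⟩

end Pool.Agent.Helper43.VA
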